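import Pool.Agent.Helper4.It.Goals
import Pool.Agent.Helper13.Comp.G11

/-! Packet IT G11: from simplices to faces, with the simplices in `Z`. -/

namespace Mono

namespace It

open Finset Filter Topology Mono.Comp C94

namespace G11I

variable {k : ℕ}

/-- The coordinates of the generators of height zero. -/
noncomputable def gK (Z τ : Finset (Fin k → ℤ)) : Finset (Fin k) :=
  univ.filter (fun i => (Pi.single i 1 : Fin k → ℤ) ∈ τ ∩ Z)

theorem inter_eq {A Z : Finset (Fin k → ℤ)} {Φ : Fan k} (hT : Tri A Z Φ)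
    (τ : Finset (Fin k → ℤ)) : τ ∩ Z = eK (gK Z τ) := by
  ext u
  rw [mem_eK]
  constructor
  · intro hu
    obtain ⟨i, rfl⟩ := hT.2.2.2.2.2.1.2.1 u (Finset.mem_inter.1 hu).2
    exact ⟨i, by simpa [gK] using hu, rfl⟩
  · rintro ⟨i, hi, rfl⟩
    simpa [gK] using hi

theorem eK_inj {K K' : Finset (Fin k)} (hKK : eK K = eK K') : K = K' := by
  ext i
  constructor
  · intro hi
    have : (Pi.single i 1 : Fin k → ℤ) ∈ eK K' := by rw [← hKK]; exact mem_eK.2 ⟨i, hi, rfl⟩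
    obtain ⟨j, hj, hji⟩ := mem_eK.1 this
    exact single_inj hji ▸ hj
  · intro hi
    have : (Pi.single i 1 : Fin k → ℤ) ∈ eK K := by rw [hKK]; exact mem_eK.2 ⟨i, hi, rfl⟩
    obtain ⟨j, hj, hji⟩ := mem_eK.1 this
    exact single_inj hji ▸ hj

theorem par {m m' : ℕ} (hmm : (m + m') % 2 = 0) : (-1 : ℤ) ^ m = (-1) ^ m' := by
  rcases Nat.even_or_odd m with hm | hm
  · have : Even m' := by
      rw [Nat.even_iff] at hm ⊢
      omega
    rw [hm.neg_one_pow, this.neg_one_pow]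
  · have : Odd m' := by
      rw [Nat.odd_iff] at hm ⊢
      omega
    rw [hm.neg_one_pow, this.neg_one_pow]

open Classical in
/-- The part of `multR` belonging to `K`. -/
theorem partR (h : CellVol) {A Z S : Finset (Fin k → ℤ)} {Φ : Fan k} {b : Fin k → ℝ}
    (hT : Tri A Z Φ) (hB : BFan A Z b Φ) (hb : ∀ i, 0 < b i) (V : Finset (Fin k))
    (w : Fin k → ℝ) (a : ℝ) (K : Finset (Fin k)) (hSK : S ⊆ eK K) :
    ∑ τ ∈ (Φ.faces.filter (fun τ => S ⊆ τ ∧ ¬ τ ⊆ Z ∧ τ.card = (cs τ).card ∧ V ⊆ cs τ ∧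
      CondR Z V w a τ)).filter (fun τ => gK Z τ = K), (-1 : ℤ) ^ (k - τ.card) * (volZ Z τ : ℤ) =
    (-1) ^ (k + K.card + 1) * multS A K b (V \ K)
      (fun i => Complex.exp (2 * Real.pi * Complex.I * (-(w i : ℂ))))
      (Complex.exp (2 * Real.pi * Complex.I * (-(a : ℂ)))) := by
  have hgK := inter_eq hT
  unfold multS
  have key := Mono.Comp.G11.sum_cells h hT hB hb K
    (fun φ => V \ K ⊆ cs (projS K φ) ∧ ∃ κ : Fin k → ℤ, (∀ i, i ∉ cs (projS K φ) → κ i = 0) ∧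
        (∀ v ∈ projS K φ, κ ⬝ᵥ v = (latDist (projS K φ) : ℤ)) ∧
        (Complex.exp (2 * Real.pi * Complex.I * (-(a : ℂ)))) ^ latDist (projS K φ) =
          ∏ i ∈ V \ K, (fun i => Complex.exp (2 * Real.pi * Complex.I * (-(w i : ℂ)))) i ^ κ i)
    (fun τ => V ⊆ cs τ ∧ CondR Z V w a τ)
    (fun φ hφ τ hτ hK hsub hc hd =>
      Mono.Comp.G11.cond_iff hφ (Fan.IsFace.indep Φ hτ) hK hsub hc hd V w a)
  have e2 : (Φ.faces.filter (fun τ => S ⊆ τ ∧ ¬ τ ⊆ Z ∧ τ.card = (cs τ).card ∧ V ⊆ cs τ ∧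
      CondR Z V w a τ)).filter (fun τ => gK Z τ = K) =
      Φ.faces.filter (fun τ => τ ∩ Z = eK K ∧ ¬ τ ⊆ Z ∧ τ.card = (cs τ).card ∧
      V ⊆ cs τ ∧ CondR Z V w a τ) := by
    ext τ
    simp only [Finset.mem_filter]
    constructor
    · rintro ⟨⟨a1, a2, a3, a4, a5, a6⟩, a7⟩
      exact ⟨a1, by rw [hgK τ, a7], a3, a4, a5, a6⟩
    · rintro ⟨a1, a2, a3, a4, a5, a6⟩
      refine ⟨⟨a1, ?_, a3, a4, a5, a6⟩, ?_⟩
      · refine hSK.trans ?_
        rw [← a2]
        exact Finset.inter_subset_left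
      · exact eK_inj (by rw [← hgK τ, a2])
  have e3 : ∀ τ ∈ Φ.faces.filter (fun τ => τ ∩ Z = eK K ∧ ¬ τ ⊆ Z ∧ τ.card = (cs τ).card ∧
      V ⊆ cs τ ∧ CondR Z V w a τ), (-1 : ℤ) ^ (k - τ.card) * (volZ Z τ : ℤ) =
      (-1) ^ (k + K.card + 1) * ((-1 : ℤ) ^ ((τ \ Z).card - 1) * (volZ Z τ : ℤ)) := by
    intro τ hτ
    obtain ⟨a1, a2, a3, a4, -⟩ := Finset.mem_filter.1 hτ
    have hpos : 0 < (τ \ Z).card := by
      rw [Finset.card_pos, Finset.nonempty_iff_ne_empty]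
      intro h0
      exact a3 (Finset.sdiff_eq_empty_iff_subset.1 h0)
    have hcard := card_split a2
    have hle : τ.card ≤ k := by
      rw [a4]
      exact (Finset.card_le_univ _).trans_eq (Fintype.card_fin k)
    rw [← mul_assoc, ← pow_add]
    congr 1
    exact par (by omega)
  rw [e2, Finset.sum_congr rfl e3, ← Finset.mul_sum]
  congr 1
  refine key.symm.trans ?_
  refine Finset.sum_congr ?_ fun _ _ => rfl
  ext φ
  simp only [Finset.mem_filter]

/-- The coordinate subspaces on which `P` vanishes. -/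
theorem face_iff {A Z : Finset (Fin k → ℤ)} {Φ : Fan k} {b : Fin k → ℝ}
    (hT : Tri A Z Φ) (hB : BFan A Z b Φ) (K : Finset (Fin k)) :
    (∀ v ∈ A, ∃ i, i ∉ K ∧ v i ≠ 0) ↔ (eK K ∈ Φ.faces ∧ eK K ⊆ Z) := by
  classical
  constructor
  · intro hA
    set x : Fin k → ℝ := fun i => if i ∈ K then 1 else 0 with hx
    have hx0 : ∀ i, 0 ≤ x i := by
      intro i
      rw [hx]
      dsimp only
      split_ifs <;> norm_num
    obtain ⟨F, hF, hc⟩ := Φ.cover x hx0
    have hcrd := sum_crd (Φ.mx_indep F hF) (Φ.mx_card F hF) x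
    have hsupp : ∀ u ∈ F, crd F x u ≠ 0 → ∀ i, i ∉ K → u i = 0 := by
      intro u hu hcu i hi
      have h1 : x i = ∑ u ∈ F, crd F x u * (u i : ℝ) := by
        conv_lhs => rw [← hcrd]
        simp [Finset.sum_apply]
      have h2 : x i = 0 := by simp [hx, hi]
      rw [h2] at h1
      have h3 := (Finset.sum_eq_zero_iff_of_nonneg (fun v hv => mul_nonneg (hc v)
        (Int.cast_nonneg (Φ.vert_nonneg v (Φ.mx_sub F hF hv) i)))).1 h1.symm u hu
      rcases mul_eq_zero.1 h3 with h4 | h4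
      · exact absurd h4 hcu
      · exact_mod_cast h4
    have hmem : ∀ i ∈ K, (Pi.single i 1 : Fin k → ℤ) ∈ F ∩ Z := by
      intro i hi
      have h1 : x i = ∑ u ∈ F, crd F x u * (u i : ℝ) := by
        conv_lhs => rw [← hcrd]
        simp [Finset.sum_apply]
      have h2 : x i = 1 := by simp [hx, hi]
      rw [h2] at h1
      have h3 : ∑ u ∈ F, crd F x u * (u i : ℝ) ≠ 0 := by rw [← h1]; norm_num
      obtain ⟨u, hu, hne⟩ := Finset.exists_ne_zero_of_sum_ne_zero h3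
      have hcu : crd F x u ≠ 0 := left_ne_zero_of_mul hne
      have hui : u i ≠ 0 := by
        have := right_ne_zero_of_mul hne
        exact_mod_cast this
      have huA : u ∉ A := by
        intro huA
        obtain ⟨j, hj, hj2⟩ := hA u huA
        exact hj2 (hsupp u hu hcu j hj)
      have huZ : u ∈ Z := by
        have h4 := Φ.mx_sub F hF hu
        rw [hT.2.2.2.2.1] at h4
        exact (Finset.mem_union.1 h4).resolve_left huA
      obtain ⟨j, hj⟩ := hT.2.2.2.2.2.1.2.1 u huZ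
      have hij : i = j := by
        by_contra hij
        exact hui (by rw [hj]; simp [hij])
      rw [hij, ← hj]
      exact Finset.mem_inter.2 ⟨hu, huZ⟩
    have hsub : eK K ⊆ F ∩ Z := by
      intro u hu
      obtain ⟨i, hi, rfl⟩ := mem_eK.1 hu
      exact hmem i hi
    exact ⟨(Fan.mem_faces Φ).2 ⟨F, hF, hsub.trans Finset.inter_subset_left⟩,
      hsub.trans Finset.inter_subset_right⟩
  · rintro ⟨hf, hZ⟩ v hv
    obtain ⟨F, hF, hsub⟩ := (Fan.mem_faces Φ).1 hf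
    obtain ⟨κ, l, -, h2, -, h4⟩ := hB F hF
    have hκ : ∀ i ∈ K, κ i = 0 := by
      intro i hi
      have hi' : (Pi.single i 1 : Fin k → ℤ) ∈ eK K := mem_eK.2 ⟨i, hi, rfl⟩
      exact (h2 i (Finset.mem_inter.2 ⟨hsub hi', hZ hi'⟩)).1
    by_contra hcon
    push Not at hcon
    have h5 : κ ⬝ᵥ toR v = 0 := by
      refine Finset.sum_eq_zero fun i _ => ?_
      by_cases hi : i ∈ K
      · rw [hκ i hi, zero_mul]
      · rw [toR_apply, hcon i hi]; simp
    rcases h4 v hv with h6 | ⟨h6, -⟩ <;> linarith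

theorem cs_eK (K : Finset (Fin k)) : cs (eK K) = K := by
  ext i
  rw [mem_cs94]
  constructor
  · rintro ⟨u, hu, hui⟩
    obtain ⟨j, hj, rfl⟩ := mem_eK.1 hu
    have hij : i = j := by
      by_contra hij
      exact hui (by simp [hij])
    exact hij ▸ hj
  · intro hi
    exact ⟨_, mem_eK.2 ⟨i, hi, rfl⟩, by simp⟩

theorem exp_one_iff (a : ℝ) : Complex.exp (2 * Real.pi * Complex.I * (-(a : ℂ))) = 1 ↔
    ∃ z : ℤ, a = z := by
  rw [Complex.exp_eq_one_iff]
  have hpi : (2 * (Real.pi : ℂ) * Complex.I) ≠ 0 := by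
    simp [Real.pi_ne_zero]
  constructor
  · rintro ⟨z, hz⟩
    refine ⟨-z, ?_⟩
    have h3 : (2 * (Real.pi : ℂ) * Complex.I) * (-(a : ℂ)) =
        (2 * (Real.pi : ℂ) * Complex.I) * z := by
      linear_combination hz
    have h4 := mul_left_cancel₀ hpi h3
    have h5 : -a = z := by exact_mod_cast h4
    push_cast
    linarith
  · rintro ⟨z, hz⟩
    refine ⟨-z, ?_⟩
    rw [hz]
    push_cast
    ring

open Classical in
/-- The part of the second summand belonging to `K`. -/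
theorem partZ {A Z S : Finset (Fin k → ℤ)} {Φ : Fan k} {b : Fin k → ℝ}
    (hT : Tri A Z Φ) (hB : BFan A Z b Φ) (V : Finset (Fin k)) (K : Finset (Fin k))
    (hSK : S ⊆ eK K) :
    ∑ τ ∈ (Φ.faces.filter (fun τ => S ⊆ τ ∧ τ ⊆ Z ∧ V ⊆ cs τ)).filter (fun τ => gK Z τ = K),
      (-1 : ℤ) ^ (k - τ.card) =
    (-1) ^ (k + K.card + 1) * -(if V \ K = ∅ ∧ ∀ v ∈ A, ∃ i, i ∉ K ∧ v i ≠ 0 then 1 else 0) := by
  have hgK := inter_eq hT
  have hVK : V \ K = ∅ ↔ V ⊆ K := Finset.sdiff_eq_empty_iff_subset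
  have hKk : K.card ≤ k := (Finset.card_le_univ _).trans_eq (Fintype.card_fin k)
  by_cases hc : V \ K = ∅ ∧ ∀ v ∈ A, ∃ i, i ∉ K ∧ v i ≠ 0
  · rw [if_pos hc]
    obtain ⟨hf, hZ⟩ := (face_iff hT hB K).1 hc.2
    have hset : (Φ.faces.filter (fun τ => S ⊆ τ ∧ τ ⊆ Z ∧ V ⊆ cs τ)).filter
        (fun τ => gK Z τ = K) = {eK K} := by
      ext τ
      simp only [Finset.mem_filter, Finset.mem_singleton]
      constructor
      · rintro ⟨⟨-, -, h3, -⟩, h5⟩
        rw [← Finset.inter_eq_left.2 h3, hgK τ, h5]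
      · rintro rfl
        refine ⟨⟨hf, hSK, hZ, ?_⟩, ?_⟩
        · rw [cs_eK]; exact hVK.1 hc.1
        · exact eK_inj (by rw [← hgK, Finset.inter_eq_left.2 hZ])
    rw [hset, Finset.sum_singleton, card_eK]
    have h1 : (-1 : ℤ) ^ (k - K.card) = (-1) ^ (k + K.card) := par (by omega)
    rw [h1, pow_succ]
    ring
  · rw [if_neg hc, neg_zero, mul_zero]
    refine Finset.sum_eq_zero fun τ hτ => ?_
    exfalso
    simp only [Finset.mem_filter] at hτ
    obtain ⟨⟨h1, h2, h3, h4⟩, h5⟩ := hτ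
    have hτK : τ = eK K := by rw [← Finset.inter_eq_left.2 h3, hgK τ, h5]
    rw [hτK] at h1 h3 h4
    rw [cs_eK] at h4
    exact hc ⟨hVK.2 h4, (face_iff hT hB K).2 ⟨h1, h3⟩⟩

end G11I

open G11I in
/-- Packet IT G11. -/
theorem linkI (h : CellVol) : LinkI := by
  classical
  intro k A Z S Φ b hT hB hb hSZ V w a hne
  have hgK := inter_eq hT
  have hsplit : multI Φ Z S V w a = ∑ K : Finset (Fin k),
      (∑ τ ∈ (Φ.faces.filter (fun τ => S ⊆ τ ∧ ¬ τ ⊆ Z ∧ τ.card = (cs τ).card ∧ V ⊆ cs τ ∧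
        CondR Z V w a τ)).filter (fun τ => gK Z τ = K),
          (-1 : ℤ) ^ (k - τ.card) * (volZ Z τ : ℤ) +
      if ∃ z : ℤ, a = z then ∑ τ ∈ (Φ.faces.filter (fun τ => S ⊆ τ ∧ τ ⊆ Z ∧ V ⊆ cs τ)).filter
        (fun τ => gK Z τ = K), (-1 : ℤ) ^ (k - τ.card) else 0) := by
    rw [Finset.sum_add_distrib, Finset.sum_fiberwise]
    unfold multI multR
    congr 1
    by_cases hz : ∃ z : ℤ, a = z
    · simp only [if_pos hz]
      rw [Finset.sum_fiberwise]
    · simp only [if_neg hz]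
      simp
  rw [hsplit] at hne
  obtain ⟨K, -, hK⟩ := Finset.exists_ne_zero_of_sum_ne_zero hne
  refine ⟨K, ?_⟩
  by_cases hSK : S ⊆ eK K
  · rw [partR h hT hB hb V w a K hSK, partZ hT hB V K hSK] at hK
    intro h0
    apply hK
    unfold multSr at h0
    by_cases hz : ∃ z : ℤ, a = z
    · rw [if_pos hz, ← mul_add]
      have h1 : (if V \ K = ∅ ∧ Complex.exp (2 * Real.pi * Complex.I * (-(a : ℂ))) = 1 ∧
          ∀ v ∈ A, ∃ i, i ∉ K ∧ v i ≠ 0 then (1 : ℤ) else 0) =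
          if V \ K = ∅ ∧ ∀ v ∈ A, ∃ i, i ∉ K ∧ v i ≠ 0 then 1 else 0 := by
        refine if_congr ?_ rfl rfl
        rw [exp_one_iff]
        tauto
      rw [h1] at h0
      rw [← sub_eq_add_neg, h0, mul_zero]
    · rw [if_neg hz, add_zero]
      have h1 : ¬ (V \ K = ∅ ∧ Complex.exp (2 * Real.pi * Complex.I * (-(a : ℂ))) = 1 ∧
          ∀ v ∈ A, ∃ i, i ∉ K ∧ v i ≠ 0) := by
        rw [exp_one_iff]
        tauto
      rw [if_neg h1, sub_zero] at h0
      rw [h0, mul_zero]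
  · exfalso
    apply hK
    have hno : ∀ τ : Finset (Fin k → ℤ), S ⊆ τ → gK Z τ = K → False := by
      intro τ h1 h2
      apply hSK
      intro u hu
      rw [← h2, ← hgK]
      exact Finset.mem_inter.2 ⟨h1 hu, hSZ hu⟩
    rw [Finset.sum_eq_zero, zero_add]
    · split_ifs
      · refine Finset.sum_eq_zero fun τ hτ => ?_
        simp only [Finset.mem_filter] at hτ
        exact (hno τ hτ.1.2.1 hτ.2).elim
      · rfl
    · intro τ hτ
      simp only [Finset.mem_filter] at hτ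
      exact (hno τ hτ.1.2.1 hτ.2).elim

end It

end Mono
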